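import Pool.Agent.W845.PM.Base

set_option autoImplicit false
open scoped Classical
open Filter Topology MeasureTheory ProbabilityTheory
open scoped ENNReal NNReal BigOperators

namespace Pool.Agent.W298.PM

open Pool.Agent.W845.PM

theorem prod_thm : S_PROD := by
  intro n p a
  have h1 : ∀ w : Fin n, (1 - p + p * a w) = p * a w + (1 - p) := by
    intro w
    ring
  rw [Finset.prod_congr rfl (fun w _ => h1 w), Finset.prod_add, Finset.powerset_univ]
  apply Finset.sum_congr rfl
  intro N _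
  rw [Finset.prod_mul_distrib, Finset.prod_const, Finset.prod_const, Finset.card_univ_diff,
    Fintype.card_fin]
  unfold ws
  ring

lemma ex_top : ex ⊤ = 0 := by
  unfold ex
  rw [if_pos rfl]

lemma ex_of_ne {u : ℝ≥0∞} (h : u ≠ ⊤) : ex u = Real.exp (-u.toReal) := by
  unfold ex
  rw [if_neg h]

lemma ex_add (u v : ℝ≥0∞) : ex (u + v) = ex u * ex v := by
  by_cases hu : u = ⊤
  · rw [hu, top_add, ex_top, zero_mul]
  · by_cases hv : v = ⊤
    · rw [hv, add_top, ex_top, mul_zero]
    · rw [ex_of_ne hu, ex_of_ne hv, ex_of_ne (ENNReal.add_ne_top.mpr ⟨hu, hv⟩),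
        ENNReal.toReal_add hu hv, neg_add, Real.exp_add]

lemma ex_zero : ex 0 = 1 := by
  rw [ex_of_ne ENNReal.zero_ne_top]
  simp

lemma ex_cont : Continuous ex := by
  rw [continuous_iff_continuousAt]
  intro u
  by_cases hu : u = ⊤
  · subst hu
    unfold ContinuousAt
    rw [ex_top, Metric.tendsto_nhds]
    intro ε hε
    have h1 : Tendsto (fun M : ℝ => Real.exp (-M)) atTop (𝓝 0) :=
      Real.tendsto_exp_neg_atTop_nhds_zero
    obtain ⟨M, hM, hM0⟩ := ((h1.eventually (gt_mem_nhds hε)).and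
      (eventually_ge_atTop 0)).exists
    have h2 : ∀ᶠ u : ℝ≥0∞ in 𝓝 ⊤, ENNReal.ofReal M < u := lt_mem_nhds ENNReal.ofReal_lt_top
    filter_upwards [h2] with u hu
    rw [Real.dist_eq, sub_zero]
    by_cases hu2 : u = ⊤
    · rw [hu2, ex_top, abs_zero]
      exact hε
    · rw [ex_of_ne hu2, abs_of_pos (Real.exp_pos _)]
      have h3 : M < u.toReal := (ENNReal.ofReal_lt_iff_lt_toReal hM0 hu2).mp hu
      refine lt_of_le_of_lt (Real.exp_le_exp.mpr ?_) hM
      linarith
  · have h1 : ContinuousAt (fun u : ℝ≥0∞ => Real.exp (-u.toReal)) u :=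
      Real.continuous_exp.continuousAt.comp (ENNReal.continuousAt_toReal hu).neg
    refine h1.congr ?_
    have h2 : ∀ᶠ v : ℝ≥0∞ in 𝓝 u, v < ⊤ := gt_mem_nhds (lt_top_iff_ne_top.mpr hu)
    filter_upwards [h2] with v hv
    exact (ex_of_ne hv.ne).symm

theorem ex_thm : S_EX := by
  refine ⟨ex_cont, ?_, ?_, ex_zero, ex_add, ?_⟩
  · intro u v h
    by_cases hu : u = ⊤
    · by_cases hv : v = ⊤
      · rw [hu, hv]
      · rw [hu, ex_top, ex_of_ne hv] at h
        exact absurd h.symm (Real.exp_pos _).ne'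
    · by_cases hv : v = ⊤
      · rw [hv, ex_top, ex_of_ne hu] at h
        exact absurd h (Real.exp_pos _).ne'
      · rw [ex_of_ne hu, ex_of_ne hv] at h
        have h1 := Real.exp_injective h
        exact (ENNReal.toReal_eq_toReal_iff' hu hv).mp (neg_injective h1)
  · intro u
    by_cases hu : u = ⊤
    · rw [hu, ex_top]
      norm_num
    · rw [ex_of_ne hu]
      refine ⟨(Real.exp_pos _).le, ?_⟩
      rw [Real.exp_le_one_iff]
      have := ENNReal.toReal_nonneg (a := u)
      linarith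
  · intro ι s u
    induction s using Finset.induction_on with
    | empty => rw [Finset.sum_empty, Finset.prod_empty, ex_zero]
    | insert a s ha ih => rw [Finset.sum_insert ha, Finset.prod_insert ha, ex_add, ih]

/-- Weierstrass on `[0,∞]` -/
theorem wei : S_EX → S_WEI := by
  intro hex h hh ε hε
  let exC : C(ℝ≥0∞, ℝ) := ⟨ex, hex.1⟩
  let A : Subalgebra ℝ C(ℝ≥0∞, ℝ) := (Polynomial.aeval exC).range
  have hsep : A.SeparatesPoints := by
    intro u v huv
    refine ⟨ex, ⟨exC, ⟨Polynomial.X, ?_⟩, rfl⟩, ?_⟩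
    · simp
    · intro h
      exact huv (hex.2.1 h)
  obtain ⟨⟨g, P, hP⟩, hg⟩ :=
    ContinuousMap.exists_mem_subalgebra_near_continuousMap_of_separatesPoints A hsep ⟨h, hh⟩ ε hε
  refine ⟨P, ?_⟩
  intro u
  have h1 := ContinuousMap.norm_coe_le_norm (g - ⟨h, hh⟩) u
  have h2 : (g - (⟨h, hh⟩ : C(ℝ≥0∞, ℝ))) u = P.eval (ex u) - h u := by
    rw [ContinuousMap.sub_apply]
    have h3 : g u = P.eval (ex u) := by
      rw [← hP]
      exact Polynomial.aeval_continuousMap_apply P exC u
    rw [h3]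
    rfl
  rw [h2, Real.norm_eq_abs] at h1
  rw [abs_sub_comm]
  exact h1.trans hg.le

end Pool.Agent.W298.PM
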