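import Pool.Agent.W845.PM.Base

set_option autoImplicit false
open scoped Classical
open Filter Topology MeasureTheory ProbabilityTheory
open scoped ENNReal NNReal BigOperators

namespace Pool.Agent.W298.PM

open Pool.Agent.W845.PM

lemma abs_prod_sub_le {ι : Type} (s : Finset ι) (x y : ι → ℝ) (hx : ∀ i, |x i| ≤ 1)
    (hy : ∀ i, |y i| ≤ 1) : |∏ i ∈ s, x i - ∏ i ∈ s, y i| ≤ ∑ i ∈ s, |x i - y i| := by
  induction s using Finset.induction_on with
  | empty => simp
  | insert a s ha ih =>
    rw [Finset.prod_insert ha, Finset.prod_insert ha, Finset.sum_insert ha]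
    have hY : |∏ i ∈ s, y i| ≤ 1 := by
      rw [Finset.abs_prod]
      exact Finset.prod_le_one (fun i _ => abs_nonneg _) (fun i _ => hy i)
    have e : x a * ∏ i ∈ s, x i - y a * ∏ i ∈ s, y i
        = x a * (∏ i ∈ s, x i - ∏ i ∈ s, y i) + (x a - y a) * ∏ i ∈ s, y i := by ring
    rw [e]
    refine (abs_add_le _ _).trans ?_
    rw [abs_mul, abs_mul]
    have h1 : |x a| * |∏ i ∈ s, x i - ∏ i ∈ s, y i| ≤ |∏ i ∈ s, x i - ∏ i ∈ s, y i| :=
      mul_le_of_le_one_left (abs_nonneg _) (hx a)
    have h2 : |x a - y a| * |∏ i ∈ s, y i| ≤ |x a - y a| :=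
      mul_le_of_le_one_right (abs_nonneg _) hY
    linarith

lemma exp_lip_aux (x y : ℝ) (hx : 0 ≤ x) (hxy : x ≤ y) :
    |Real.exp (-x) - Real.exp (-y)| ≤ y - x := by
  have h1 : Real.exp (-y) ≤ Real.exp (-x) := Real.exp_le_exp.mpr (by linarith)
  rw [abs_of_nonneg (by linarith)]
  have h2 : Real.exp (-y) = Real.exp (-x) * Real.exp (-(y - x)) := by
    rw [← Real.exp_add]
    congr 1
    ring
  have h3 : 1 - (y - x) ≤ Real.exp (-(y - x)) := Real.one_sub_le_exp_neg (y - x)
  have h4 : Real.exp (-x) ≤ 1 := by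
    rw [Real.exp_le_one_iff]
    linarith
  have h5 := Real.exp_pos (-x)
  rw [h2]
  nlinarith

lemma exp_lip (x y : ℝ) (hx : 0 ≤ x) (hy : 0 ≤ y) :
    |Real.exp (-x) - Real.exp (-y)| ≤ |x - y| := by
  rcases le_total x y with h | h
  · rw [abs_of_nonpos (by linarith : x - y ≤ 0)]
    have := exp_lip_aux x y hx h
    linarith
  · rw [abs_of_nonneg (by linarith : 0 ≤ x - y), abs_sub_comm]
    exact exp_lip_aux y x hy h

theorem poi : S_POI := by
  intro n p c α a hp0 hp1 hc hα0 hα1 ha
  have hstep1 : |∏ w, (1 - p + p * a w) - Real.exp (-(p * ∑ w, (1 - a w)))| ≤ n * p ^ 2 := by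
    have e1 : Real.exp (-(p * ∑ w, (1 - a w))) = ∏ w, Real.exp (-(p * (1 - a w))) := by
      rw [Finset.mul_sum, ← Finset.sum_neg_distrib, Real.exp_sum]
    rw [e1]
    refine (abs_prod_sub_le _ _ _ ?_ ?_).trans ?_
    · intro w
      have h1 := ha w
      rw [abs_le]
      constructor <;> nlinarith [mul_nonneg hp0 h1.1, mul_nonneg hp0 (sub_nonneg.mpr h1.2)]
    · intro w
      rw [abs_of_pos (Real.exp_pos _), Real.exp_le_one_iff]
      have := mul_nonneg hp0 (sub_nonneg.mpr (ha w).2)
      linarith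
    · have h2 : ∀ w : Fin n, |1 - p + p * a w - Real.exp (-(p * (1 - a w)))| ≤ p ^ 2 := by
        intro w
        have h1 := ha w
        have h3 : 0 ≤ p * (1 - a w) := mul_nonneg hp0 (sub_nonneg.mpr h1.2)
        have h4 : p * (1 - a w) ≤ p := by nlinarith [mul_nonneg hp0 h1.1]
        have h5 : |-(p * (1 - a w))| ≤ 1 := by
          rw [abs_neg, abs_of_nonneg h3]
          linarith
        have h6 := Real.abs_exp_sub_one_sub_id_le h5
        rw [abs_sub_comm]
        have e2 : Real.exp (-(p * (1 - a w))) - (1 - p + p * a w)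
            = Real.exp (-(p * (1 - a w))) - 1 - -(p * (1 - a w)) := by ring
        rw [e2]
        refine h6.trans ?_
        rw [neg_sq]
        exact pow_le_pow_left₀ h3 h4 2
      calc ∑ w : Fin n, |1 - p + p * a w - Real.exp (-(p * (1 - a w)))|
          ≤ ∑ w : Fin n, p ^ 2 := Finset.sum_le_sum fun w _ => h2 w
        _ = n * p ^ 2 := by
          rw [Finset.sum_const, Finset.card_univ, Fintype.card_fin, nsmul_eq_mul]
  have hsum0 : 0 ≤ ∑ w, (1 - a w) := Finset.sum_nonneg fun w _ => sub_nonneg.mpr (ha w).2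
  have hstep2 : |Real.exp (-(p * ∑ w, (1 - a w))) - Real.exp (-(c * (1 - α)))| ≤
      |(n : ℝ) * p - c| + c * |(∑ w, a w) / n - α| := by
    refine (exp_lip _ _ (mul_nonneg hp0 hsum0) (mul_nonneg hc (by linarith))).trans ?_
    rcases Nat.eq_zero_or_pos n with hn | hn
    · subst hn
      simp only [Finset.univ_eq_empty, Finset.sum_empty, mul_zero, Nat.cast_zero, zero_mul,
        zero_sub, abs_neg, div_zero]
      rw [abs_of_nonneg (mul_nonneg hc (by linarith)), abs_of_nonneg hc]
      have := mul_nonneg hc (abs_nonneg α)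
      nlinarith
    · have hn' : (0 : ℝ) < n := by exact_mod_cast hn
      set A : ℝ := (∑ w, a w) / n with hA
      have hAn : ∑ w, a w = n * A := by rw [hA]; field_simp
      have hA0 : 0 ≤ A := div_nonneg (Finset.sum_nonneg fun w _ => (ha w).1) hn'.le
      have hA1 : A ≤ 1 := by
        rw [hA, div_le_one hn']
        calc ∑ w, a w ≤ ∑ w : Fin n, (1 : ℝ) := Finset.sum_le_sum fun w _ => (ha w).2
          _ = n := by simp
      have e1 : p * ∑ w, (1 - a w) - c * (1 - α) = ((n : ℝ) * p - c) * (1 - A) + c * (α - A) := by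
        rw [Finset.sum_sub_distrib, hAn]
        simp
        ring
      rw [e1]
      refine (abs_add_le _ _).trans ?_
      rw [abs_mul, abs_mul, abs_of_nonneg hc, abs_of_nonneg (by linarith : 0 ≤ 1 - A),
        abs_sub_comm α A]
      have h7 : |(n : ℝ) * p - c| * (1 - A) ≤ |(n : ℝ) * p - c| :=
        mul_le_of_le_one_right (abs_nonneg _) (by linarith)
      linarith
  have e3 : ∏ w, (1 - p + p * a w) - Real.exp (-(c * (1 - α)))
      = (∏ w, (1 - p + p * a w) - Real.exp (-(p * ∑ w, (1 - a w))))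
        + (Real.exp (-(p * ∑ w, (1 - a w))) - Real.exp (-(c * (1 - α)))) := by ring
  rw [e3]
  refine (abs_add_le _ _).trans ?_
  linarith

end Pool.Agent.W298.PM
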