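import Pool.Agent.W845.PM.Base

set_option autoImplicit false
open scoped Classical
open Filter Topology MeasureTheory ProbabilityTheory
open scoped ENNReal NNReal BigOperators

namespace Pool.Agent.W298.PM

open Pool.Agent.W845.PM

lemma gen_set (hgen : S_GEN) (c : ℝ≥0) (A B : Set Om) (hA : MeasurableSet A)
    (hB : MeasurableSet B)
    (h : ∀ ω, ω ∈ B ↔ ∀ i ∈ Finset.range (ω []), sh i ω ∈ A) :
    ((Pm c) B).toReal = Real.exp (-((c : ℝ) * (1 - ((Pm c) A).toReal))) := by
  have h1 := hgen c (A.indicator 1) (measurable_one.indicator hA) (by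
    intro ω
    by_cases hω : ω ∈ A
    · simp [hω]
    · simp [hω])
  have h2 : (fun ω : Om => ∏ i ∈ Finset.range (ω []), A.indicator (1 : Om → ℝ) (sh i ω))
      = B.indicator 1 := by
    funext ω
    by_cases hω : ω ∈ B
    · rw [Set.indicator_of_mem hω, Pi.one_apply]
      apply Finset.prod_eq_one
      intro i hi
      rw [Set.indicator_of_mem ((h ω).mp hω i hi), Pi.one_apply]
    · rw [Set.indicator_of_notMem hω]
      rw [h ω] at hω
      push Not at hω
      obtain ⟨i, hi, hiA⟩ := hω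
      apply Finset.prod_eq_zero hi
      rw [Set.indicator_of_notMem hiA]
  rw [h2, integral_indicator_one hB, integral_indicator_one hA] at h1
  exact h1

theorem teq : S_TM → S_GEN → S_TEQ := by
  intro htm hgen c x t s hx ht hs
  obtain ⟨hxm, hx1, hxf⟩ := hx
  let S : Om → ℝ≥0∞ := fun ω => ∑ j ∈ Finset.range (ω []), x (sh j ω)
  have hSm : Measurable S := htm.1 x hxm
  have mA : MeasurableSet {ω | x ω = 0} := hxm (measurableSet_singleton 0)
  have mB : MeasurableSet {ω | S ω = 0} := hSm (measurableSet_singleton 0)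
  have e1 : ((Pm c) {ω | x ω = 0}).toReal = 1 - t := by
    have h1 : {ω | x ω = 0} = {ω | x ω ≠ 0}ᶜ := by
      ext ω
      simp
    have h2 : ((Pm c) {ω | x ω ≠ 0}ᶜ) = 1 - (Pm c) {ω | x ω ≠ 0} :=
      prob_compl_eq_one_sub mA.compl
    rw [h1, h2, ENNReal.toReal_sub_of_le prob_le_one ENNReal.one_ne_top, ENNReal.toReal_one, ht]
  have e2 : ((Pm c) {ω | S ω ≠ 0}).toReal = 1 - s := by
    have h2 : ((Pm c) {ω | S ω = 0}ᶜ) = 1 - (Pm c) {ω | S ω = 0} :=
      prob_compl_eq_one_sub mB
    have h1 : {ω | S ω ≠ 0} = {ω | S ω = 0}ᶜ := rfl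
    rw [h1, h2, ENNReal.toReal_sub_of_le prob_le_one ENNReal.one_ne_top, ENNReal.toReal_one, hs]
  constructor
  · have h := gen_set hgen c {ω | x ω = 0} {ω | S ω = 0} mA mB (by
      intro ω
      show S ω = 0 ↔ _
      simp only [S, Finset.sum_eq_zero_iff]
      rfl)
    rw [e1] at h
    rw [hs]
    have h3 : ((Pm c) {ω | ∑ j ∈ Finset.range (ω []), x (sh j ω) = 0}).toReal
      = ((Pm c) {ω | S ω = 0}).toReal := rfl
    rw [h3, h]
    congr 1
    ring
  · have h := gen_set hgen c {ω | S ω ≠ 0} {ω | x ω ≠ 0} mB.compl mA.compl (by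
      intro ω
      show x ω ≠ 0 ↔ _
      rw [hxf ω, ENNReal.inv_ne_zero, ENNReal.add_ne_top, ne_eq (∑ i ∈ _, _), ENNReal.sum_eq_top]
      constructor
      · rintro ⟨_, h⟩ i hi
        show S (sh i ω) ≠ 0
        intro h0
        exact h ⟨i, hi, by
          rw [ENNReal.inv_eq_top]
          exact h0⟩
      · intro h
        refine ⟨ENNReal.one_ne_top, ?_⟩
        rintro ⟨i, hi, h0⟩
        rw [ENNReal.inv_eq_top] at h0
        exact h i hi h0)
    rw [e2] at h
    rw [← ht] at h
    rw [h]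
    congr 1
    ring

end Pool.Agent.W298.PM
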