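import Pool.Agent.W845.PM.Base

set_option autoImplicit false
open scoped Classical
open Filter Topology MeasureTheory ProbabilityTheory
open scoped ENNReal NNReal BigOperators

namespace Pool.Agent.W298.PM

open Pool.Agent.W845.PM

lemma zinv (z : ℕ) (hz : 1 ≤ z) (s : ℝ≥0∞) :
    (z : ℝ≥0∞) * (1 + (z : ℝ≥0∞) * s)⁻¹ = ((z : ℝ≥0∞)⁻¹ + s)⁻¹ := by
  have h0 : (z : ℝ≥0∞) ≠ 0 := by
    rw [ne_eq, Nat.cast_eq_zero]
    omega
  have h1 : (z : ℝ≥0∞) ≠ ⊤ := ENNReal.natCast_ne_top z
  have h2 : ((z : ℝ≥0∞)⁻¹ + s) = (z : ℝ≥0∞)⁻¹ * (1 + (z : ℝ≥0∞) * s) := by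
    rw [mul_add, mul_one, ← mul_assoc, ENNReal.inv_mul_cancel h0 h1, one_mul]
  rw [h2, ENNReal.mul_inv (Or.inl (ENNReal.inv_ne_zero.mpr h1))
    (Or.inl (ENNReal.inv_ne_top.mpr h0)), inv_inv]

theorem z2 : S_Z2 := by
  intro V _ G k
  induction k generalizing G with
  | zero =>
    intro v
    simp only [mul_zero, U]
    exact ⟨tendsto_const_nhds, le_rfl⟩
  | succ k ih =>
    intro v
    have hA : U gA 1 (2 * (k + 1)) G v = (1 + ∑ w : V, if G.Adj v w then
        (∑ u : V, if (del G v).Adj w u then U gA 1 (2 * k) (del (del G v) w) u else 0)⁻¹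
          else 0)⁻¹ := by
      have e : 2 * (k + 1) = (2 * k + 1) + 1 := by ring
      rw [e]
      simp only [U, gA]
      have h1 : ¬ Even (2 * k + 1) := by
        rw [Nat.not_even_iff_odd]
        exact ⟨k, rfl⟩
      have h2 : Even (2 * k) := ⟨k, by ring⟩
      rw [if_neg h1]
      simp only [if_pos h2]
    have hZ : ∀ z : ℕ, 1 ≤ z → U (gZ z) 1 (2 * (k + 1)) G v = (1 + ∑ w : V, if G.Adj v w then
        ((z : ℝ≥0∞)⁻¹ + ∑ u : V, if (del G v).Adj w u then U (gZ z) 1 (2 * k) (del (del G v) w) u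
          else 0)⁻¹ else 0)⁻¹ := by
      intro z hz
      have e : 2 * (k + 1) = (2 * k + 1) + 1 := by ring
      rw [e]
      simp only [U, gZ]
      rw [Finset.mul_sum]
      congr 2
      apply Finset.sum_congr rfl
      intro w _
      rw [mul_ite, mul_zero, zinv z hz]
    refine ⟨?_, ?_⟩
    · rw [hA]
      have hlim : Tendsto (fun z : ℕ => (1 + ∑ w : V, if G.Adj v w then
        ((z : ℝ≥0∞)⁻¹ + ∑ u : V, if (del G v).Adj w u then U (gZ z) 1 (2 * k) (del (del G v) w) u
          else 0)⁻¹ else 0)⁻¹) atTop (𝓝 ((1 + ∑ w : V, if G.Adj v w then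
        (∑ u : V, if (del G v).Adj w u then U gA 1 (2 * k) (del (del G v) w) u else 0)⁻¹
          else 0)⁻¹)) := by
        refine ((continuous_inv (G := ℝ≥0∞)).tendsto _).comp ?_
        refine tendsto_const_nhds.add (tendsto_finsetSum _ fun w _ => ?_)
        by_cases hw : G.Adj v w
        · simp only [hw, if_true]
          refine ((continuous_inv (G := ℝ≥0∞)).tendsto _).comp ?_
          have h1 : Tendsto (fun z : ℕ => ∑ u : V, if (del G v).Adj w u then
              U (gZ z) 1 (2 * k) (del (del G v) w) u else 0) atTop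
              (𝓝 (∑ u : V, if (del G v).Adj w u then
                U gA 1 (2 * k) (del (del G v) w) u else 0)) := by
            refine tendsto_finsetSum _ fun u _ => ?_
            by_cases hu : (del G v).Adj w u
            · simp only [hu, if_true]
              exact (ih _ u).1
            · simp only [hu, if_false]
              exact tendsto_const_nhds
          have h2 := ENNReal.tendsto_inv_nat_nhds_zero.add h1
          rwa [zero_add] at h2
        · simp only [hw, if_false]
          exact tendsto_const_nhds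
      refine hlim.congr' ?_
      filter_upwards [eventually_ge_atTop 1] with z hz
      exact (hZ z hz).symm
    · rw [hA, ENNReal.inv_le_one]
      exact le_self_add

theorem za : S_Z1 → S_Z2 → S_ZA := by
  intro h1 h2 V _ G k
  have hlim : Tendsto (fun z : ℕ => ∑ v : V, (U (gZ z) 1 (2 * k) G v).toReal) atTop
      (𝓝 (∑ v : V, (U gA 1 (2 * k) G v).toReal)) := by
    refine tendsto_finsetSum _ fun v _ => ?_
    obtain ⟨h3, h4⟩ := h2 V G k v
    exact (ENNReal.tendsto_toReal (ne_top_of_le_ne_top ENNReal.one_ne_top h4)).comp h3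
  exact ge_of_tendsto' hlim (fun z => h1 V G z k)

end Pool.Agent.W298.PM
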